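import Mathlib

/-!
# MP_d66889_lc: every subshift that is avo for convex sets is SFT on convex sets

Idea: remove the extreme points of a finite convex set one after the other. If every restriction
of a pattern to a set `C ∩ (v + N)`, together with `v`, is globally valid then, adding the points
back one after the other, the avo property shows that the whole pattern is globally valid.
-/

set_option autoImplicit false

namespace Pool.Agent.Results.MP_d66889_lc.AvoSFTOnConvex

/-- The shift `σ_u`, given by `σ_u(x)_v = x_(v - u)`. -/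
def shift {d : ℕ} {A : Type} (u : Fin d → ℤ) (x : (Fin d → ℤ) → A) : (Fin d → ℤ) → A :=
  fun v => x (v - u)

/-- A subshift: a closed set of configurations (for the product topology) which is invariant under
all shifts. -/
def IsSubshift {d : ℕ} {A : Type} [TopologicalSpace A] (X : Set ((Fin d → ℤ) → A)) : Prop :=
  IsClosed X ∧ ∀ u, shift u '' X = X

/-- A pattern: a map from a finite subset `D` of `ℤ^d` to the alphabet. -/
structure Pattern (d : ℕ) (A : Type) where
  /-- the support -/
  D : Finset (Fin d → ℤ)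
  /-- the symbols -/
  val : D → A

/-- The pattern `p` is globally valid in `X`: it is the restriction of a point of `X`. -/
def GloballyValid {d : ℕ} {A : Type} (X : Set ((Fin d → ℤ) → A)) (p : Pattern d A) : Prop :=
  ∃ x ∈ X, ∀ v : p.D, x v = p.val v

/-- `X_F`: the configurations in which no translate of a pattern of `F` occurs. -/
def avoiding {d : ℕ} {A : Type} (F : Set (Pattern d A)) : Set ((Fin d → ℤ) → A) :=
  {x | ∀ q ∈ F, ∀ u : Fin d → ℤ, ¬ ∀ v : q.D, x (v + u) = q.val v}

/-- The pattern `p` is locally valid for `F`: no translate of a pattern of `F` with support inside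
the support of `p` occurs in `p`. -/
def LocallyValid {d : ℕ} {A : Type} (F : Set (Pattern d A)) (p : Pattern d A) : Prop :=
  ∀ q ∈ F, ∀ u : Fin d → ℤ, ∀ h : (∀ v ∈ q.D, v + u ∈ p.D),
    ¬ ∀ v : q.D, p.val ⟨v + u, h v v.2⟩ = q.val v

/-- The real vector of an integer vector. -/
def toReal {d : ℕ} (v : Fin d → ℤ) : Fin d → ℝ := fun i => (v i : ℝ)

/-- A set of integer points is convex if it contains all integer points of its real convex
hull. -/
def IsConvex {d : ℕ} (C : Set (Fin d → ℤ)) : Prop :=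
  ∀ z : Fin d → ℤ, toReal z ∈ convexHull ℝ (toReal '' C) → z ∈ C

/-- The set `E_X(x, D, v)` of the symbols `a` such that the restriction of `x` to `D` together
with `v ↦ a` is globally valid. -/
def ext {d : ℕ} {A : Type} (X : Set ((Fin d → ℤ) → A)) (x : (Fin d → ℤ) → A)
    (D : Set (Fin d → ℤ)) (v : Fin d → ℤ) : Set A :=
  {a | ∃ y ∈ X, (∀ w ∈ D, y w = x w) ∧ y v = a}

/-- `X` is avo for convex sets: for one finite set `N`, the set of the symbols which extend a
globally valid pattern on a finite convex set `C` to a further point `v` (with `C ∪ {v}` convex)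
only depends on the restriction of the pattern to `C ∩ (v + N)`. -/
def AvoForConvex {d : ℕ} {A : Type} (X : Set ((Fin d → ℤ) → A)) : Prop :=
  ∃ N : Finset (Fin d → ℤ), ∀ C : Finset (Fin d → ℤ), IsConvex (C : Set (Fin d → ℤ)) →
    ∀ v, v ∉ C → IsConvex (insert v (C : Set (Fin d → ℤ))) → ∀ x ∈ X,
      ext X x C v = ext X x {w | w ∈ C ∧ w - v ∈ N} v

/-- `X` is SFT on convex sets, with a finite set `F` of forbidden patterns which all have convex
supports. -/
def SFTOnConvex {d : ℕ} {A : Type} (X : Set ((Fin d → ℤ) → A)) : Prop :=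
  ∃ F : Set (Pattern d A), F.Finite ∧ (∀ q ∈ F, IsConvex (q.D : Set (Fin d → ℤ))) ∧
    X = avoiding F ∧ ∀ p : Pattern d A, IsConvex (p.D : Set (Fin d → ℤ)) →
      LocallyValid F p → GloballyValid X p

/-! ### Convex sets -/

theorem toReal_injective {d : ℕ} : Function.Injective (toReal (d := d)) := by
  intro a b h
  funext i
  have := congrFun h i
  unfold toReal at this
  exact_mod_cast this

theorem isConvex_of_convex {d : ℕ} (C : Set (Fin d → ℤ)) (K : Set (Fin d → ℝ))
    (hK : Convex ℝ K) (h : ∀ z, z ∈ C ↔ toReal z ∈ K) : IsConvex C := by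
  intro z hz
  rw [h]
  refine (convexHull_min ?_ hK) hz
  rintro _ ⟨w, hw, rfl⟩
  exact (h w).1 hw

theorem isConvex_iff {d : ℕ} (C : Set (Fin d → ℤ)) : IsConvex C ↔
    ∀ z, z ∈ C ↔ toReal z ∈ convexHull ℝ (toReal '' C) := by
  constructor
  · intro h z
    exact ⟨fun hz => subset_convexHull _ _ ⟨z, hz, rfl⟩, h z⟩
  · intro h z hz
    exact (h z).2 hz

theorem IsConvex.exists_erase {d : ℕ} {C : Finset (Fin d → ℤ)}
    (hC : IsConvex (C : Set (Fin d → ℤ))) (hne : C.Nonempty) :
    ∃ v ∈ C, IsConvex ((C.erase v : Finset _) : Set (Fin d → ℤ)) := by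
  set S : Set (Fin d → ℝ) := toReal '' (C : Set (Fin d → ℤ)) with hS
  have hfin : S.Finite := (Finset.finite_toSet C).image _
  have hne' : (convexHull ℝ S).Nonempty := by
    obtain ⟨c, hc⟩ := hne
    exact ⟨toReal c, subset_convexHull _ _ ⟨c, by simpa using hc, rfl⟩⟩
  obtain ⟨e, he⟩ := (hfin.isCompact_convexHull (𝕜 := ℝ)).extremePoints_nonempty hne'
  have heS : e ∈ S := extremePoints_convexHull_subset he
  obtain ⟨v, hv, rfl⟩ := heS
  refine ⟨v, by simpa using hv, ?_⟩
  have h1 := (convex_convexHull ℝ S).mem_extremePoints_iff_convex_diff.1 he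
  have h2 : convexHull ℝ (toReal '' ((C.erase v : Finset _) : Set (Fin d → ℤ))) ⊆
      convexHull ℝ S \ {toReal v} := by
    refine convexHull_min ?_ h1.2
    rintro _ ⟨w, hw, rfl⟩
    have hw' : w ≠ v ∧ w ∈ C := by simpa [and_comm] using hw
    refine ⟨subset_convexHull _ _ ⟨w, by simpa using hw'.2, rfl⟩, ?_⟩
    intro h3
    exact hw'.1 (toReal_injective h3)
  intro z hz
  have h3 := h2 hz
  rw [Finset.mem_coe, Finset.mem_erase]
  refine ⟨?_, hC z h3.1⟩
  rintro rfl
  exact h3.2 rfl

theorem exists_convex_superset {d : ℕ} (N : Finset (Fin d → ℤ)) :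
    ∃ M : Finset (Fin d → ℤ), N ⊆ M ∧ (0 : Fin d → ℤ) ∈ M ∧
      ∃ K : Set (Fin d → ℝ), Convex ℝ K ∧ ∀ z, z ∈ M ↔ toReal z ∈ K := by
  classical
  obtain ⟨n, hn⟩ : ∃ n : ℕ, ∀ z ∈ N, ∀ i, |z i| ≤ n := by
    refine ⟨∑ z ∈ N, ∑ i, (z i).natAbs, fun z hz i => ?_⟩
    have h1 : (z i).natAbs ≤ ∑ i, (z i).natAbs :=
      Finset.single_le_sum (f := fun i => (z i).natAbs) (fun _ _ => Nat.zero_le _)
        (Finset.mem_univ i)
    have h2 : ∑ i, (z i).natAbs ≤ ∑ z ∈ N, ∑ i, (z i).natAbs :=
      Finset.single_le_sum (f := fun z : Fin d → ℤ => ∑ i, (z i).natAbs)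
        (fun _ _ => Nat.zero_le _) hz
    have h3 : |z i| = ((z i).natAbs : ℤ) := by simp
    rw [h3]
    exact_mod_cast h1.trans h2
  refine ⟨Fintype.piFinset fun _ => Finset.Icc (-(n : ℤ)) n, ?_, ?_,
    Set.Icc (fun _ => -(n : ℝ)) (fun _ => (n : ℝ)), convex_Icc _ _, ?_⟩
  · intro z hz
    rw [Fintype.mem_piFinset]
    intro i
    have := abs_le.1 (hn z hz i)
    exact Finset.mem_Icc.2 this
  · rw [Fintype.mem_piFinset]
    intro i
    simp
  · intro z
    rw [Fintype.mem_piFinset, Set.mem_Icc, Pi.le_def, Pi.le_def]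
    constructor
    · intro h
      refine ⟨fun i => ?_, fun i => ?_⟩
      · have := (Finset.mem_Icc.1 (h i)).1
        show -(n : ℝ) ≤ (z i : ℝ)
        exact_mod_cast this
      · have := (Finset.mem_Icc.1 (h i)).2
        show (z i : ℝ) ≤ (n : ℝ)
        exact_mod_cast this
    · rintro ⟨h1, h2⟩ i
      rw [Finset.mem_Icc]
      have h3 : -(n : ℝ) ≤ (z i : ℝ) := h1 i
      have h4 : (z i : ℝ) ≤ (n : ℝ) := h2 i
      exact ⟨by exact_mod_cast h3, by exact_mod_cast h4⟩

/-! ### The main argument -/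

section

variable {d : ℕ} {A : Type}

/-- The forbidden patterns: the patterns with convex support inside `M` which are not globally
valid. -/
def forb (X : Set ((Fin d → ℤ) → A)) (M : Finset (Fin d → ℤ)) : Set (Pattern d A) :=
  {q | q.D ⊆ M ∧ IsConvex (q.D : Set (Fin d → ℤ)) ∧ ¬ GloballyValid X q}

theorem forb_finite [Finite A] (X : Set ((Fin d → ℤ) → A)) (M : Finset (Fin d → ℤ)) :
    (forb X M).Finite := by
  classical
  have h : Set.Finite (⋃ D ∈ (M.powerset : Set (Finset (Fin d → ℤ))),
      Set.range fun f : D → A => (⟨D, f⟩ : Pattern d A)) := by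
    refine Set.Finite.biUnion (Finset.finite_toSet _) fun D _ => Set.finite_range _
  refine h.subset ?_
  rintro ⟨D, f⟩ ⟨h1, _, _⟩
  simp only [Set.mem_iUnion]
  exact ⟨D, by simpa using h1, f, rfl⟩

theorem shift_mem [TopologicalSpace A] {X : Set ((Fin d → ℤ) → A)} (hX : IsSubshift X)
    (u : Fin d → ℤ) {x : (Fin d → ℤ) → A} (hx : x ∈ X) : shift u x ∈ X := by
  rw [← hX.2 u]
  exact ⟨x, hx, rfl⟩

theorem valid_of_local [TopologicalSpace A] {X : Set ((Fin d → ℤ) → A)} (hX : IsSubshift X)
    {N M : Finset (Fin d → ℤ)} (hNM : N ⊆ M) (h0 : (0 : Fin d → ℤ) ∈ M)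
    {K : Set (Fin d → ℝ)} (hK : Convex ℝ K) (hMK : ∀ z, z ∈ M ↔ toReal z ∈ K)
    (hN : ∀ C : Finset (Fin d → ℤ), IsConvex (C : Set (Fin d → ℤ)) → ∀ v, v ∉ C →
      IsConvex (insert v (C : Set (Fin d → ℤ))) → ∀ x ∈ X,
        ext X x C v = ext X x {w | w ∈ C ∧ w - v ∈ N} v) :
    ∀ n : ℕ, ∀ p : Pattern d A, p.D.card = n → IsConvex (p.D : Set (Fin d → ℤ)) →
      LocallyValid (forb X M) p → GloballyValid X p := by
  classical
  intro n
  induction n with
  | zero =>
    intro p hp _ hl
    have hD : ∀ v, v ∉ p.D := by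
      intro v hv
      have : p.D.Nonempty := ⟨v, hv⟩
      rw [← Finset.card_pos] at this
      omega
    by_contra hcon
    have hX0 : ¬ ∃ x, x ∈ X := by
      rintro ⟨x, hx⟩
      exact hcon ⟨x, hx, fun v => absurd v.2 (hD v)⟩
    refine hl ⟨∅, fun v => absurd v.2 (Finset.notMem_empty _)⟩ ⟨Finset.empty_subset _, ?_, ?_⟩ 0
      (fun v hv => absurd hv (Finset.notMem_empty _)) (fun v => absurd v.2 (Finset.notMem_empty _))
    · intro z hz
      simp at hz
    · rintro ⟨x, hx, _⟩
      exact hX0 ⟨x, hx⟩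
  | succ n ih =>
    intro p hp hc hl
    have hne : p.D.Nonempty := by
      rw [← Finset.card_pos]
      omega
    obtain ⟨v, hv, hcv⟩ := hc.exists_erase hne
    -- the restriction to `p.D.erase v`
    obtain ⟨x, hx, hxp⟩ := ih ⟨p.D.erase v, fun w => p.val ⟨w, Finset.mem_of_mem_erase w.2⟩⟩
      (by
        show (p.D.erase v).card = n
        rw [Finset.card_erase_of_mem hv, hp]; rfl) hcv (by
        intro q hq u h1 h2
        exact hl q hq u (fun w hw => Finset.mem_of_mem_erase (h1 w hw)) h2)
    -- the restriction to `p.D ∩ (v + M)`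
    have hq : ∃ y ∈ X, ∀ w (hw : w ∈ p.D), w - v ∈ M → y w = p.val ⟨w, hw⟩ := by
      by_contra hcon
      have hmem : ∀ w, w ∈ ((p.D.filter fun w => w - v ∈ M).image fun w => w - v) →
          w + v ∈ p.D := by
        intro w hw
        rw [Finset.mem_image] at hw
        obtain ⟨w', h1, rfl⟩ := hw
        rw [sub_add_cancel]
        exact (Finset.mem_filter.1 h1).1
      refine hl ⟨(p.D.filter fun w => w - v ∈ M).image fun w => w - v,
        fun w => p.val ⟨w + v, hmem w w.2⟩⟩ ⟨?_, ?_, ?_⟩ v hmem (fun w => rfl)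
      · intro w hw
        simp only [Finset.mem_image, Finset.mem_filter] at hw
        obtain ⟨w', h1, rfl⟩ := hw
        exact h1.2
      · -- convexity
        have h3 := (isConvex_iff (p.D : Set (Fin d → ℤ))).1 hc
        refine isConvex_of_convex _
          (((fun t => t + toReal v) ⁻¹' convexHull ℝ (toReal '' (p.D : Set (Fin d → ℤ)))) ∩ K)
          (((convex_convexHull ℝ _).translate_preimage_left _).inter hK) ?_
        intro z
        simp only [Finset.coe_image, Finset.coe_filter, Set.mem_image, Set.mem_ofPred_eq,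
          Set.mem_inter_iff, Set.mem_preimage]
        have h4 : toReal z + toReal v = toReal (z + v) := by
          funext i
          simp [toReal]
        rw [h4, ← h3, ← hMK, Finset.mem_coe]
        constructor
        · rintro ⟨w, ⟨h5, h6⟩, rfl⟩
          rw [sub_add_cancel]
          exact ⟨h5, h6⟩
        · rintro ⟨h5, h6⟩
          exact ⟨z + v, ⟨h5, by rwa [add_sub_cancel_right]⟩, add_sub_cancel_right z v⟩
      · rintro ⟨y, hy, hyq⟩
        apply hcon
        refine ⟨shift v y, shift_mem hX v hy, fun w hw hwM => ?_⟩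
        have h5 : w - v ∈ (p.D.filter fun w => w - v ∈ M).image fun w => w - v :=
          Finset.mem_image_of_mem _ (Finset.mem_filter.2 ⟨hw, hwM⟩)
        have h6 := hyq ⟨w - v, h5⟩
        show y (w - v) = _
        rw [h6]
        show p.val ⟨w - v + v, _⟩ = _
        congr 1
        exact Subtype.ext (sub_add_cancel w v)
    obtain ⟨y, hy, hyp⟩ := hq
    have hins : insert v ((p.D.erase v : Finset _) : Set (Fin d → ℤ)) = p.D := by
      rw [← Finset.coe_insert, Finset.insert_erase hv]
    have h1 := hN (p.D.erase v) hcv v (Finset.notMem_erase _ _) (by rw [hins]; exact hc) x hx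
    have h2 : p.val ⟨v, hv⟩ ∈ ext X x {w | w ∈ p.D.erase v ∧ w - v ∈ N} v := by
      refine ⟨y, hy, ?_, hyp v hv (by rw [sub_self]; exact h0)⟩
      rintro w ⟨hw, hwN⟩
      rw [hyp w (Finset.mem_of_mem_erase hw) (hNM hwN)]
      exact (hxp ⟨w, hw⟩).symm
    rw [← h1] at h2
    obtain ⟨z, hz, hz1, hz2⟩ := h2
    refine ⟨z, hz, fun w => ?_⟩
    by_cases hwv : (w : Fin d → ℤ) = v
    · obtain ⟨w, hw⟩ := w
      subst hwv
      exact hz2
    · have hw' : (w : Fin d → ℤ) ∈ p.D.erase v := Finset.mem_erase.2 ⟨hwv, w.2⟩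
      rw [hz1 w (Finset.mem_coe.2 hw')]
      exact hxp ⟨w, hw'⟩

end

/-- For all `d` and all finite alphabets `A`, every subshift `X` of `A^(ℤ^d)` that is avo for convex
sets is SFT on convex sets: there is a finite set `F` of forbidden patterns (even with convex
supports) such that `X = X_F` and every pattern on a finite convex set that is locally valid for
`F` is globally valid in `X`. -/
theorem result (d : ℕ) (A : Type) [Finite A] [TopologicalSpace A] [DiscreteTopology A]
    (X : Set ((Fin d → ℤ) → A)) (hX : IsSubshift X) (h : AvoForConvex X) : SFTOnConvex X := by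
  classical
  obtain ⟨N, hN⟩ := h
  obtain ⟨M, hNM, h0, K, hK, hMK⟩ := exists_convex_superset N
  have key := valid_of_local hX hNM h0 hK hMK hN
  refine ⟨forb X M, forb_finite X M, fun q hq => hq.2.1, ?_, fun p hp hl => key _ p rfl hp hl⟩
  apply Set.Subset.antisymm
  · intro x hx q hq u hocc
    apply hq.2.2
    refine ⟨shift (-u) x, shift_mem hX _ hx, fun v => ?_⟩
    show x (v - -u) = _
    rw [sub_neg_eq_add]
    exact hocc v
  · intro x hx
    rw [← hX.1.closure_eq, mem_closure_iff]
    intro U hU hxU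
    -- a finite set of coordinates
    obtain ⟨I, t, ht, htU⟩ := isOpen_pi_iff.1 hU x hxU
    obtain ⟨B, hIB, -, KB, hKB, hB⟩ := exists_convex_superset I
    have hBc : IsConvex (B : Set (Fin d → ℤ)) :=
      isConvex_of_convex _ KB hKB (fun z => by rw [Finset.mem_coe, hB z])
    obtain ⟨y, hy, hyB⟩ := key _ ⟨B, fun v => x v⟩ rfl hBc (by
      intro q hq u h1 h2
      exact hx q hq u h2)
    refine ⟨y, htU ?_, hy⟩
    intro i hi
    have h3 : y i = x i := hyB ⟨i, hIB hi⟩
    rw [h3]
    exact (ht i hi).2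

end Pool.Agent.Results.MP_d66889_lc.AvoSFTOnConvex
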